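import Pool.Agent.E8helper30.MC.Stm

/-!
# Project MC, part DJ: greedy choice of pairwise disjoint sets
-/

set_option autoImplicit false

namespace Pool.Agent.E8helper91.MC

open scoped Classical
open Pool.Agent.E8helper30.MC

theorem t_DJ : S_DJ := by
  intro α β J A K b m hK hb hA hx
  induction m with
  | zero =>
    intro _
    exact ⟨∅, Finset.empty_subset _, rfl, fun g hg => absurd hg (Finset.notMem_empty g)⟩
  | succ m ih =>
    intro hm
    have hexp : (m + 1) * K * b = m * K * b + K * b := by ring
    have hKb : 1 ≤ K * b := Nat.mul_pos hK hb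
    obtain ⟨B, hBJ, hBc, hBd⟩ := ih (by omega)
    let M : Finset β := B.biUnion fun h => (A h).biUnion fun x => J.filter fun g => x ∈ A g
    have hM : M.card ≤ m * K * b := by
      calc M.card ≤ ∑ h ∈ B, ((A h).biUnion fun x => J.filter fun g => x ∈ A g).card :=
            Finset.card_biUnion_le
        _ ≤ ∑ h ∈ B, K * b := by
            refine Finset.sum_le_sum fun h hh => ?_
            calc ((A h).biUnion fun x => J.filter fun g => x ∈ A g).card
                ≤ ∑ x ∈ A h, (J.filter fun g => x ∈ A g).card := Finset.card_biUnion_le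
              _ ≤ ∑ x ∈ A h, b := Finset.sum_le_sum fun x _ => hx x
              _ = K * b := by rw [Finset.sum_const, hA h (hBJ hh), smul_eq_mul]
        _ = m * K * b := by rw [Finset.sum_const, hBc, smul_eq_mul, mul_assoc]
    obtain ⟨g, hgJ, hgM⟩ := Finset.exists_mem_notMem_of_card_lt_card (s := M) (t := J) (by omega)
    have hdis : ∀ h ∈ B, Disjoint (A g) (A h) := by
      intro h hh
      rw [Finset.disjoint_left]
      intro x hxg hxh
      exact hgM (Finset.mem_biUnion.2 ⟨h, hh, Finset.mem_biUnion.2
        ⟨x, hxh, Finset.mem_filter.2 ⟨hgJ, hxg⟩⟩⟩)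
    have hgB : g ∉ B := by
      intro hgB
      have h1 := hdis g hgB
      rw [disjoint_self, Finset.bot_eq_empty] at h1
      have h2 := hA g hgJ
      rw [h1, Finset.card_empty] at h2
      omega
    refine ⟨insert g B, Finset.insert_subset hgJ hBJ, by rw [Finset.card_insert_of_notMem hgB, hBc],
      ?_⟩
    intro u hu w hw huw
    rcases Finset.mem_insert.1 hu with hug | huB
    · rcases Finset.mem_insert.1 hw with hwg | hwB
      · exact absurd (hug.trans hwg.symm) huw
      · rw [hug]
        exact hdis w hwB
    · rcases Finset.mem_insert.1 hw with hwg | hwB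
      · rw [hwg]
        exact (hdis u huB).symm
      · exact hBd u huB w hwB huw

end Pool.Agent.E8helper91.MC
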